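import Mathlib

open Set Filter Topology MeasureTheory Real InnerProductSpace Metric
open scoped Laplacian

namespace Pool.Agent.Results.MP_784777_an.Minimal

/-- subharmonic on `D`: upper semicontinuous, values in `[-∞, ∞)`, local sub-mean inequality
(written for the nonnegative function `M - w`) -/
def SubhOn (w : ℂ → EReal) (D : Set ℂ) : Prop :=
  UpperSemicontinuousOn w D ∧ (∀ z ∈ D, w z ≠ ⊤) ∧
    ∀ c ∈ D, ∀ᶠ r in 𝓝[>] (0:ℝ), ∀ M : ℝ, (∀ θ, w (circleMap c r θ) ≤ M) →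
      ∫⁻ θ in Ioc 0 (2 * π), (M - w (circleMap c r θ)).toENNReal ≤
        ENNReal.ofReal (2 * π) * (M - w c).toENNReal

def InU (ρ : ℝ) (v : ℂ → EReal) : Prop :=
  SubhOn v univ ∧ v 0 = 0 ∧ ∃ σ > 0, ∀ z, v z ≤ (σ * ‖z‖ ^ ρ : ℝ)

def IsMinimal (ρ : ℝ) (v : ℂ → EReal) : Prop :=
  ∀ ε > 0, ¬ ∃ w, InU ρ w ∧ ∀ z, w z ≤ v z - (ε * ‖z‖ ^ ρ : ℝ)

/-- `H(v)` -/
def Harm (v : ℂ → EReal) : Set ℂ :=
  {z | ∃ h : ℂ → ℝ, HarmonicAt h z ∧ ∀ᶠ x in 𝓝 z, v x = h x}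

/-- regular boundary point: there is a local barrier -/
def Regular (D : Set ℂ) (q : ℂ) : Prop :=
  ∃ N, IsOpen N ∧ q ∈ N ∧ ∃ b : ℂ → EReal, SubhOn b (D ∩ N) ∧ (∀ p ∈ D ∩ N, b p < 0) ∧
    Tendsto b (𝓝[D] q) (𝓝 0)

/-- problem (1) on the cylinder, with `p = x + i y` -/
def Sol (l : ℝ) (D : Set ℂ) (r : ℂ → ℝ) : Prop :=
  (∀ p, r (p + 2 * π * Complex.I) = r p) ∧ ContDiffOn ℝ 2 r D ∧ (∃ B, ∀ p ∈ D, |r p| ≤ B) ∧
    (∀ p ∈ D, Δ r p + 2 * l * fderiv ℝ r p 1 + l ^ 2 * r p = 0) ∧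
    ∀ q ∈ frontier D, Regular D q → Tendsto r (𝓝[D] q) (𝓝 0)

noncomputable def lamD (D : Set ℂ) : EReal :=
  sInf {x | ∃ l : ℝ, x = l ∧ 0 < l ∧ ∃ r, Sol l D r ∧ ∃ p ∈ D, r p ≠ 0}

noncomputable def lam (v : ℂ → EReal) : EReal := lamD {p | Complex.exp p ∈ Harm v}

noncomputable def u (ρ : ℝ) (z : ℂ) : ℝ := √(1 + (‖z‖ ^ ρ) ^ 2) - 1

lemma cont_u {ρ : ℝ} (hρ : 0 < ρ) : Continuous (u ρ) := by
  have : Continuous fun z : ℂ => ‖z‖ ^ ρ := continuous_norm.rpow_const fun _ => Or.inr hρ.le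
  unfold u; fun_prop

lemma u_zero {ρ : ℝ} (hρ : 0 < ρ) : u ρ 0 = 0 := by simp [u, hρ.ne']

lemma u_nonneg (ρ : ℝ) (z : ℂ) : 0 ≤ u ρ z := by
  have : 1 ≤ √(1 + (‖z‖ ^ ρ) ^ 2) := one_le_sqrt.2 (by nlinarith)
  unfold u; linarith

lemma u_le (ρ : ℝ) (z : ℂ) : u ρ z ≤ ‖z‖ ^ ρ ∧ u ρ z ≤ (‖z‖ ^ ρ) ^ 2 ∧ ‖z‖ ^ ρ - 1 ≤ u ρ z := by
  have h : 0 ≤ ‖z‖ ^ ρ := by positivity
  unfold u
  refine ⟨?_, ?_, ?_⟩
  · rw [sub_le_iff_le_add, sqrt_le_left (by positivity)]; nlinarith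
  · rw [sub_le_iff_le_add, sqrt_le_left (by positivity)]; nlinarith [sq_nonneg (‖z‖ ^ ρ)]
  · gcongr; exact le_sqrt_of_sq_le (by linarith)

noncomputable def k (ρ : ℝ) (c : ℂ) : ℝ := (‖c‖ ^ ρ) ^ 2 * ρ / √(1 + (‖c‖ ^ ρ) ^ 2)

lemma tangent {ρ : ℝ} (hρ : 0 < ρ) {c z : ℂ} (hc : c ≠ 0) (hz : z ≠ 0) :
    u ρ c + k ρ c * (log ‖z‖ - log ‖c‖) ≤ u ρ z ∧
      (‖z‖ ≠ ‖c‖ → u ρ c + k ρ c * (log ‖z‖ - log ‖c‖) < u ρ z) := by
  have hc' := norm_pos_iff.2 hc
  have hz' := norm_pos_iff.2 hz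
  set a := ‖c‖ ^ ρ with ha
  set t := ρ * (log ‖z‖ - log ‖c‖) with ht
  have ha0 : 0 < a := by positivity
  have hs : ‖z‖ ^ ρ = a * exp t := by
    rw [ha, rpow_def_of_pos hc', rpow_def_of_pos hz', ← exp_add]; congr 1; ring
  have hA : 0 < √(1 + a ^ 2) := by positivity
  have cs : 1 + a * (a * exp t) ≤ √(1 + (a * exp t) ^ 2) * √(1 + a ^ 2) := by
    rw [← sqrt_mul (by positivity)]
    exact le_sqrt_of_sq_le (by nlinarith [sq_nonneg (a * exp t - a)])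
  have e : u ρ c + k ρ c * (log ‖z‖ - log ‖c‖) = (1 + a * (a * (t + 1))) / √(1 + a ^ 2) - 1 := by
    have := sq_sqrt (by positivity : 0 ≤ 1 + a ^ 2)
    simp only [u, k, ← ha]
    field_simp
    rw [ht]; linear_combination this
  rw [e, u, hs]
  refine ⟨?_, fun h => ?_⟩
  · gcongr
    rw [div_le_iff₀ hA]
    refine le_trans ?_ cs
    gcongr; exact add_one_le_exp t
  · gcongr
    rw [div_lt_iff₀ hA]
    refine lt_of_lt_of_le ?_ cs
    gcongr
    refine add_one_lt_exp (mul_ne_zero hρ.ne' (sub_ne_zero.2 fun h' => h ?_))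
    exact log_injOn_pos hz' hc' h'

lemma harm_log {c : ℂ} {r : ℝ} (hr : 0 < r) (h : r < ‖c‖) :
    (∀ z ∈ closedBall c |r|, z ≠ 0) ∧ HarmonicOnNhd (fun z : ℂ => log ‖z‖) (closedBall c |r|) := by
  have h1 : ∀ z ∈ closedBall c |r|, z ≠ 0 := by
    rintro z hz rfl
    rw [abs_of_pos hr] at hz
    simp at hz; linarith
  exact ⟨h1, fun z hz => analyticAt_id.harmonicAt_log_norm (h1 z hz)⟩

lemma submean {ρ : ℝ} (hρ : 0 < ρ) (c : ℂ) : ∀ᶠ r in 𝓝[>] (0:ℝ), u ρ c ≤ circleAverage (u ρ) c r := by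
  by_cases hc : c = 0
  · refine .of_forall fun r => ?_
    rw [hc, u_zero hρ]
    exact circleAverage_nonneg_of_nonneg fun z _ => u_nonneg ρ z
  filter_upwards [Ioo_mem_nhdsGT (norm_pos_iff.2 hc)] with r hr
  obtain ⟨h1, h2⟩ := harm_log hr.1 hr.2
  have h3 := ((harmonicOnNhd_const (u ρ c)).add ((h2.sub
    (harmonicOnNhd_const (log ‖c‖))).const_smul (c := k ρ c)))
  have := h3.circleAverage_eq
  simp only [Pi.add_apply, Pi.smul_apply, Pi.sub_apply, sub_self, smul_zero, add_zero] at this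
  rw [← this]
  refine circleAverage_mono (h3.continuousOn.mono sphere_subset_closedBall).circleIntegrable'
    ((cont_u hρ).continuousOn.circleIntegrable') fun z hz => ?_
  exact (tangent hρ hc (h1 z (sphere_subset_closedBall hz))).1

lemma subh {ρ : ℝ} (hρ : 0 < ρ) : SubhOn (fun z => u ρ z) univ := by
  refine ⟨(continuous_coe_real_ereal.comp (cont_u hρ)).upperSemicontinuous.upperSemicontinuousOn _,
    fun z _ => EReal.coe_ne_top _, fun c _ => ?_⟩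
  filter_upwards [submean hρ c] with r hr M hM
  have hM' : ∀ θ, u ρ (circleMap c r θ) ≤ M := fun θ => EReal.coe_le_coe_iff.1 (hM θ)
  have hc : Continuous fun θ => u ρ (circleMap c r θ) := (cont_u hρ).comp (continuous_circleMap c r)
  simp only [← EReal.coe_sub, EReal.real_coe_toENNReal]
  rw [← ofReal_integral_eq_lintegral_ofReal (Continuous.integrableOn_Ioc (by fun_prop))
    (.of_forall fun θ => sub_nonneg.2 (hM' θ)), ← ENNReal.ofReal_mul (by positivity),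
    ← intervalIntegral.integral_of_le (by positivity),
    intervalIntegral.integral_sub intervalIntegrable_const (hc.intervalIntegrable _ _)]
  refine ENNReal.ofReal_le_ofReal ?_
  rw [circleAverage_def, smul_eq_mul, le_inv_mul_iff₀ (by positivity)] at hr
  simp; linarith

lemma harm_empty {ρ : ℝ} (hρ : 0 < ρ) : Harm (fun z => u ρ z) = ∅ := by
  have key : ∀ c : ℂ, c ≠ 0 → ¬ HarmonicAt (u ρ) c := by
    intro c hc h
    have hc' := norm_pos_iff.2 hc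
    obtain ⟨δ, hδ, hb⟩ := Metric.eventually_nhds_iff_ball.1 h.eventually
    set r := min δ ‖c‖ / 2 with hr
    have r0 : 0 < r := by positivity
    have r1 : r < δ := by have := min_le_left δ ‖c‖; linarith
    have r2 : r < ‖c‖ := by have := min_le_right δ ‖c‖; linarith
    obtain ⟨h1, h2⟩ := harm_log r0 r2
    have h4 : HarmonicOnNhd (u ρ) (closedBall c |r|) := fun z hz =>
      hb z (closedBall_subset_ball (by rwa [abs_of_pos r0]) hz)
    have h3 := h4.sub ((harmonicOnNhd_const (u ρ c)).add ((h2.sub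
      (harmonicOnNhd_const (log ‖c‖))).const_smul (c := k ρ c)))
    have e := h3.circleAverage_eq
    simp only [Pi.add_apply, Pi.smul_apply, Pi.sub_apply, sub_self, smul_zero, add_zero] at e
    have hm : ∀ θ, circleMap c r θ ∈ closedBall c |r| := fun θ =>
      sphere_subset_closedBall (circleMap_mem_sphere' c r θ)
    rw [circleAverage_def, smul_eq_mul, mul_eq_zero] at e
    refine absurd (e.resolve_left (by positivity)) (ne_of_gt ?_)
    refine intervalIntegral.integral_pos (by positivity)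
      ((h3.continuousOn.comp_continuous (continuous_circleMap c r) hm).continuousOn)
      (fun θ _ => sub_nonneg.2 (tangent hρ hc (h1 _ (hm θ))).1) ?_
    by_cases hn : ‖circleMap c r 0‖ = ‖c‖
    · refine ⟨π, ⟨pi_pos.le, by linarith [pi_pos]⟩,
        sub_pos.2 ((tangent hρ hc (h1 _ (hm π))).2 fun h => ?_)⟩
      have a1 := congrArg (· ^ 2) hn
      have a2 := congrArg (· ^ 2) h
      simp [circleMap, Complex.sq_norm, Complex.normSq_apply] at a1 a2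
      nlinarith
    · exact ⟨0, ⟨le_rfl, by positivity⟩, sub_pos.2 ((tangent hρ hc (h1 _ (hm 0))).2 hn)⟩
  rw [eq_empty_iff_forall_notMem]
  rintro z ⟨h, hh, he⟩
  have h1 : HarmonicAt (u ρ) z := (harmonicAt_congr_nhds
    (he.mono fun x hx => EReal.coe_eq_coe_iff.1 hx)).2 hh
  obtain ⟨c, hc, hc0⟩ := ((h1.eventually.filter_mono nhdsWithin_le_nhds).and
    (Set.Finite.eventually_cofinite_notMem (finite_singleton 0) |>.filter_mono
      (nhdsNE_le_cofinite z))).exists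
  exact key c hc0 hc

theorem result (ρ : ℝ) (hρ : 0 < ρ) : ∃ v : ℂ → EReal, InU ρ v ∧ Harm v ≠ univ ∧
    (∀ z, ((‖z‖ ^ ρ - 1 : ℝ) : EReal) ≤ v z) ∧ IsMinimal ρ v ∧ lam v = ⊤ := by
  refine ⟨fun z => u ρ z, ⟨subh hρ, by simp [u_zero hρ], 1, one_pos, fun z => ?_⟩, ?_,
    fun z => EReal.coe_le_coe_iff.2 (u_le ρ z).2.2, ?_, ?_⟩
  · exact EReal.coe_le_coe_iff.2 (by simpa using (u_le ρ z).1)
  · rw [harm_empty hρ]; exact empty_ne_univ
  · rintro ε hε ⟨w, ⟨hw, hw0, -⟩, hle⟩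
    have t : Tendsto (fun r : ℝ => r ^ ρ) (𝓝 0) (𝓝 0) := by
      simpa [hρ.ne'] using (continuousAt_rpow_const 0 ρ (Or.inr hρ.le)).tendsto
    obtain ⟨r, ⟨h1, h2⟩, hr⟩ := (((hw.2.2 0 trivial).and
      ((t.eventually (gt_mem_nhds hε)).filter_mono nhdsWithin_le_nhds)).and
      self_mem_nhdsWithin).exists
    have hr0 : 0 < r := hr
    have ha : 0 < r ^ ρ := by positivity
    have hb : ∀ θ, w (circleMap 0 r θ) ≤ (-(r ^ ρ * (ε - r ^ ρ)) : ℝ) := fun θ => by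
      refine (hle _).trans ?_
      rw [← EReal.coe_sub, EReal.coe_le_coe_iff]
      have := (u_le ρ (circleMap 0 r θ)).2.1
      simp only [norm_circleMap_zero, abs_of_pos hr0] at *
      nlinarith
    have hp : 0 < r ^ ρ * (ε - r ^ ρ) := mul_pos ha (sub_pos.2 h2)
    have := h1 0 fun θ => (hb θ).trans (EReal.coe_le_coe_iff.2 (by linarith))
    rw [hw0] at this
    have h3 : ∫⁻ _ in Ioc 0 (2 * π), ENNReal.ofReal (r ^ ρ * (ε - r ^ ρ)) ≤ 0 := by
      refine le_trans (lintegral_mono fun θ => ?_) (this.trans (by simp))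
      rw [← EReal.real_coe_toENNReal]
      refine EReal.toENNReal_le_toENNReal ?_
      have := EReal.neg_le_neg_iff.2 (hb θ)
      simpa using this
    simp at h3
    rcases h3 with h | h <;> linarith [pi_pos]
  · simp [lam, lamD, harm_empty hρ]

end Pool.Agent.Results.MP_784777_an.Minimal
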